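import Pool.Agent.H94.ZDefs
import Pool.Agent.H94.ZProof

set_option autoImplicit false

namespace Pool.Agent.Results.MP_e20a4f_an.Woronowicz

open Pool.Agent.H94.ZDefs
open scoped MultiplierAlgebra

/-- If `f : A → 𝓜(B)` is an injective *-homomorphism into the multiplier algebra such that the
span of the elements `f(a) b` is dense in `B`, and `A` is a `Z*`-algebra, then so is `B`. -/
theorem result {A B : Type} [NonUnitalCStarAlgebra A] [NonUnitalCStarAlgebra B]
    (f : A →⋆ₙₐ[ℂ] 𝓜(ℂ, B)) (hf : Function.Injective f)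
    (hd : Dense (Submodule.span ℂ {y : B | ∃ (a : A) (b : B), y = (f a).fst b} : Set B))
    (hA : IsZStar A) : IsZStar B :=
  Pool.Agent.H94.ZProof.woronowicz f hf hd hA

end Pool.Agent.Results.MP_e20a4f_an.Woronowicz
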